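import Pool.Agent.Y755.FK.Stm

/-!
# FK-EEA: rules for asymptotic expansions (project FK of helper755)
-/

set_option autoImplicit false

open Polynomial

namespace Pool.Agent.Y385.FK

open Pool.Agent.Y755.FK

/-- polynomials are bounded on the unit interval -/
theorem poly_bdd (p : Polynomial ℝ) : ∃ M : ℝ, 0 ≤ M ∧ ∀ x : ℝ, 0 < x → x < 1 →
    |p.eval x| ≤ M := by
  have hc : ContinuousOn (fun x : ℝ => p.eval x) (Set.Icc 0 1) := p.continuous.continuousOn
  obtain ⟨M, hM⟩ := isCompact_Icc.exists_bound_of_continuousOn hc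
  refine ⟨max M 0, le_max_right _ _, fun x h0 h1 => ?_⟩
  exact le_trans (hM x ⟨h0.le, h1.le⟩) (le_max_left _ _)

/-- the constant may be taken nonnegative -/
theorem EE_nonneg {f : ℝ → ℝ} (hf : EE f) (n : ℕ) : ∃ (p : Polynomial ℝ) (C : ℝ), 0 ≤ C ∧
    ∀ x : ℝ, 0 < x → x < 1 → |f x - p.eval x| ≤ C * x ^ n := by
  obtain ⟨p, C, h⟩ := hf n
  refine ⟨p, max C 0, le_max_right _ _, fun x h0 h1 => (h x h0 h1).trans ?_⟩
  exact mul_le_mul_of_nonneg_right (le_max_left _ _) (pow_nonneg h0.le _)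

/-- functions with an expansion are bounded -/
theorem EE_bdd {f : ℝ → ℝ} (hf : EE f) : ∃ M : ℝ, 0 ≤ M ∧ ∀ x : ℝ, 0 < x → x < 1 →
    |f x| ≤ M := by
  obtain ⟨p, C, hC, h⟩ := EE_nonneg hf 0
  obtain ⟨M, hM, hp⟩ := poly_bdd p
  refine ⟨C + M, by positivity, fun x h0 h1 => ?_⟩
  have h2 := h x h0 h1
  have h3 := hp x h0 h1
  have h4 : |f x| ≤ |f x - p.eval x| + |p.eval x| := by
    have := abs_add_le (f x - p.eval x) (p.eval x)
    simpa using this
  simp only [pow_zero, mul_one] at h2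
  linarith

theorem EE_const (a : ℝ) : EE fun _ => a := by
  intro n
  refine ⟨C a, 0, fun x h0 h1 => by simp⟩

theorem EE_id : EE fun x => x := by
  intro n
  refine ⟨X, 0, fun x h0 h1 => by simp⟩

theorem EE_add {f g : ℝ → ℝ} (hf : EE f) (hg : EE g) : EE fun x => f x + g x := by
  intro n
  obtain ⟨p, C, h⟩ := hf n
  obtain ⟨q, D, h'⟩ := hg n
  refine ⟨p + q, C + D, fun x h0 h1 => ?_⟩
  have h2 := h x h0 h1
  have h3 := h' x h0 h1
  have h4 : f x + g x - (p + q).eval x = (f x - p.eval x) + (g x - q.eval x) := by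
    rw [eval_add]; ring
  rw [h4, add_mul]
  exact (abs_add_le _ _).trans (add_le_add h2 h3)

theorem EE_mul {f g : ℝ → ℝ} (hf : EE f) (hg : EE g) : EE fun x => f x * g x := by
  intro n
  obtain ⟨p, C, hC, h⟩ := EE_nonneg hf n
  obtain ⟨q, D, hD, h'⟩ := EE_nonneg hg n
  obtain ⟨M, hM, hb⟩ := EE_bdd hf
  obtain ⟨N, hN, hq⟩ := poly_bdd q
  refine ⟨p * q, M * D + N * C, fun x h0 h1 => ?_⟩
  have hx : 0 ≤ x ^ n := pow_nonneg h0.le _
  have h4 : f x * g x - (p * q).eval x
      = f x * (g x - q.eval x) + q.eval x * (f x - p.eval x) := by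
    rw [eval_mul]; ring
  rw [h4]
  refine (abs_add_le _ _).trans ?_
  rw [abs_mul, abs_mul, add_mul]
  refine add_le_add ?_ ?_
  · calc |f x| * |g x - q.eval x| ≤ M * (D * x ^ n) :=
        mul_le_mul (hb x h0 h1) (h' x h0 h1) (abs_nonneg _) hM
      _ = M * D * x ^ n := by ring
  · calc |q.eval x| * |f x - p.eval x| ≤ N * (C * x ^ n) :=
        mul_le_mul (hq x h0 h1) (h x h0 h1) (abs_nonneg _) hN
      _ = N * C * x ^ n := by ring

theorem EE_congr {f g : ℝ → ℝ} (hf : EE f) (h : ∀ x : ℝ, 0 < x → x < 1 → f x = g x) : EE g := by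
  intro n
  obtain ⟨p, C, h'⟩ := hf n
  exact ⟨p, C, fun x h0 h1 => by rw [← h x h0 h1]; exact h' x h0 h1⟩

/-- a limit at zero from the right -/
theorem tendsto_poly (p : Polynomial ℝ) :
    Filter.Tendsto (fun x : ℝ => |p.eval x|) (nhdsWithin 0 (Set.Ioi 0)) (nhds |p.eval 0|) := by
  have : Filter.Tendsto (fun x : ℝ => |p.eval x|) (nhds 0) (nhds |p.eval 0|) :=
    (p.continuous.abs).tendsto 0
  exact this.mono_left nhdsWithin_le_nhds

theorem ev_unit : ∀ᶠ x : ℝ in nhdsWithin 0 (Set.Ioi 0), 0 < x ∧ x < 1 :=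
  Ioo_mem_nhdsGT (by norm_num)

theorem EE_inv {g : ℝ → ℝ} (hg : EE g)
    (hc : ∃ c : ℝ, 0 < c ∧ ∀ x : ℝ, 0 < x → x < 1 → c ≤ |g x|) : EE fun x => (g x)⁻¹ := by
  obtain ⟨c, hc, hgc⟩ := hc
  intro n
  obtain ⟨q, D, hD, h⟩ := EE_nonneg hg (n + 1)
  -- the value at zero
  have hq0 : q.eval 0 ≠ 0 := by
    intro h0
    have hle : ∀ᶠ x : ℝ in nhdsWithin 0 (Set.Ioi 0), c ≤ |q.eval x| + D * x := by
      filter_upwards [ev_unit] with x hx
      have h1 := h x hx.1 hx.2
      have h2 := hgc x hx.1 hx.2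
      have h3 : |g x| ≤ |g x - q.eval x| + |q.eval x| := by
        have := abs_add_le (g x - q.eval x) (q.eval x)
        simpa using this
      have h4 : x ^ (n + 1) ≤ x := by
        calc x ^ (n + 1) = x ^ n * x := pow_succ x n
          _ ≤ 1 * x := mul_le_mul_of_nonneg_right (pow_le_one₀ hx.1.le hx.2.le) hx.1.le
          _ = x := one_mul x
      have h5 : D * x ^ (n + 1) ≤ D * x := mul_le_mul_of_nonneg_left h4 hD
      linarith
    have hlim : Filter.Tendsto (fun x : ℝ => |q.eval x| + D * x) (nhdsWithin 0 (Set.Ioi 0))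
        (nhds (|q.eval 0| + D * 0)) := by
      refine (tendsto_poly q).add ?_
      have : Filter.Tendsto (fun x : ℝ => D * x) (nhds 0) (nhds (D * 0)) :=
        (continuous_const.mul continuous_id).tendsto 0
      exact this.mono_left nhdsWithin_le_nhds
    have := ge_of_tendsto hlim hle
    rw [h0] at this
    simp at this
    linarith
  -- the inverse modulo `X ^ (n + 1)`
  have hcop : IsCoprime q ((X : Polynomial ℝ) ^ (n + 1)) := by
    apply IsCoprime.pow_right
    have hirr : Irreducible (X : Polynomial ℝ) := Polynomial.irreducible_X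
    rw [isCoprime_comm]
    rw [hirr.coprime_iff_not_dvd]
    rw [Polynomial.X_dvd_iff]
    rwa [← Polynomial.coeff_zero_eq_eval_zero] at hq0
  obtain ⟨a, b, hab⟩ := hcop
  obtain ⟨A, hA, ha⟩ := poly_bdd a
  obtain ⟨B, hB, hb⟩ := poly_bdd b
  refine ⟨a, (B + D * A) / c, fun x h0 h1 => ?_⟩
  have hgx : 0 < |g x| := lt_of_lt_of_le hc (hgc x h0 h1)
  have hgne : g x ≠ 0 := abs_pos.mp hgx
  have hev : a.eval x * q.eval x + b.eval x * x ^ (n + 1) = 1 := by
    have := congrArg (fun r : Polynomial ℝ => r.eval x) hab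
    simpa using this
  have hid : (g x)⁻¹ - a.eval x
      = (b.eval x * x ^ (n + 1) - (g x - q.eval x) * a.eval x) * (g x)⁻¹ := by
    field_simp
    linear_combination (-1) * hev
  have hx : 0 ≤ x ^ (n + 1) := pow_nonneg h0.le _
  rw [hid, abs_mul, abs_inv]
  have h2 : |b.eval x * x ^ (n + 1) - (g x - q.eval x) * a.eval x| ≤ (B + D * A) * x ^ (n + 1) := by
    refine (abs_sub _ _).trans ?_
    rw [abs_mul, abs_mul, abs_of_nonneg hx, add_mul]
    refine add_le_add (mul_le_mul_of_nonneg_right (hb x h0 h1) hx) ?_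
    calc |g x - q.eval x| * |a.eval x| ≤ (D * x ^ (n + 1)) * A :=
        mul_le_mul (h x h0 h1) (ha x h0 h1) (abs_nonneg _) (by positivity)
      _ = D * A * x ^ (n + 1) := by ring
  have h3 : |g x|⁻¹ ≤ c⁻¹ := inv_anti₀ hc (hgc x h0 h1)
  have h4 : x ^ (n + 1) ≤ x ^ n := pow_le_pow_of_le_one h0.le h1.le (Nat.le_succ n)
  calc |b.eval x * x ^ (n + 1) - (g x - q.eval x) * a.eval x| * |g x|⁻¹
      ≤ ((B + D * A) * x ^ (n + 1)) * c⁻¹ :=
        mul_le_mul h2 h3 (inv_nonneg.mpr (abs_nonneg _)) (by positivity)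
    _ ≤ ((B + D * A) * x ^ n) * c⁻¹ := by
        apply mul_le_mul_of_nonneg_right _ (inv_nonneg.mpr hc.le)
        exact mul_le_mul_of_nonneg_left h4 (by positivity)
    _ = (B + D * A) / c * x ^ n := by rw [div_eq_mul_inv]; ring

theorem EE_div {f g : ℝ → ℝ} (hf : EE f) (hg : EE g)
    (hc : ∃ c : ℝ, 0 < c ∧ ∀ x : ℝ, 0 < x → x < 1 → c ≤ |g x|) : EE fun x => f x / g x := by
  have := EE_mul hf (EE_inv hg hc)
  simpa only [div_eq_mul_inv] using this

theorem EE_ana {f : ℝ → ℝ} (hf : ∀ x : ℝ, 0 ≤ x → x ≤ 1 → ContDiffAt ℝ ⊤ f x) : EE f := by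
  intro n
  have hcd : ContDiffOn ℝ ((n : WithTop ℕ∞) + 1) f (Set.Icc 0 1) := by
    intro x hx
    exact ((hf x hx.1 hx.2).of_le le_top).contDiffWithinAt
  obtain ⟨C, hC⟩ := exists_taylor_mean_remainder_bound (zero_le_one) hcd
  refine ⟨∑ k ∈ Finset.range (n + 1),
    Polynomial.C (((k.factorial : ℝ)⁻¹) * iteratedDerivWithin k f (Set.Icc 0 1) 0) * X ^ k,
    max C 0, fun x h0 h1 => ?_⟩
  have h := hC x ⟨h0.le, h1.le⟩
  rw [taylor_within_apply] at h
  rw [Polynomial.eval_finsetSum]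
  have hs : ∑ k ∈ Finset.range (n + 1), Polynomial.eval x
      (Polynomial.C (((k.factorial : ℝ)⁻¹) * iteratedDerivWithin k f (Set.Icc 0 1) 0) * X ^ k)
      = ∑ k ∈ Finset.range (n + 1), (((k.factorial : ℝ)⁻¹) * (x - 0) ^ k) •
        iteratedDerivWithin k f (Set.Icc 0 1) 0 := by
    refine Finset.sum_congr rfl fun k _ => ?_
    simp only [eval_mul, eval_C, eval_pow, eval_X, sub_zero, smul_eq_mul]
    ring
  rw [hs]
  rw [Real.norm_eq_abs, sub_zero] at h
  simp only [sub_zero] at h ⊢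
  refine h.trans ?_
  have hx : 0 ≤ x ^ n := pow_nonneg h0.le _
  calc C * x ^ (n + 1) ≤ max C 0 * x ^ (n + 1) :=
        mul_le_mul_of_nonneg_right (le_max_left _ _) (pow_nonneg h0.le _)
    _ ≤ max C 0 * x ^ n :=
        mul_le_mul_of_nonneg_left (pow_le_pow_of_le_one h0.le h1.le (Nat.le_succ n))
          (le_max_right _ _)

theorem EE_exp (a : ℝ) : EE fun x => Real.exp (-(a * x)) := by
  apply EE_ana
  intro x _ _
  have : ContDiff ℝ ⊤ (fun x : ℝ => Real.exp (-(a * x))) :=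
    Real.contDiff_exp.comp ((contDiff_const.mul contDiff_id).neg)
  exact this.contDiffAt

/-- a polynomial of size `x ^ (k + 1/2)` is divisible by `X ^ (k + 1)` -/
theorem poly_dvd (k : ℕ) : ∀ h : Polynomial ℝ,
    (∃ M : ℝ, ∀ x : ℝ, 0 < x → x < 1 → |h.eval x| ≤ M * (x ^ k * √x)) → X ^ (k + 1) ∣ h := by
  induction k with
  | zero =>
    rintro h ⟨M, hM⟩
    rw [zero_add, pow_one, Polynomial.X_dvd_iff, Polynomial.coeff_zero_eq_eval_zero]
    have hlim : Filter.Tendsto (fun x : ℝ => M * √x) (nhdsWithin 0 (Set.Ioi 0))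
        (nhds (M * √0)) := by
      have : Filter.Tendsto (fun x : ℝ => M * √x) (nhds 0) (nhds (M * √0)) :=
        (continuous_const.mul Real.continuous_sqrt).tendsto 0
      exact this.mono_left nhdsWithin_le_nhds
    have hle : ∀ᶠ x : ℝ in nhdsWithin 0 (Set.Ioi 0), |h.eval x| ≤ M * √x := by
      filter_upwards [ev_unit] with x hx
      have := hM x hx.1 hx.2
      simpa using this
    have := le_of_tendsto_of_tendsto (tendsto_poly h) hlim hle
    rw [Real.sqrt_zero, mul_zero] at this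
    exact abs_eq_zero.mp (le_antisymm this (abs_nonneg _))
  | succ k ih =>
    rintro h ⟨M, hM⟩
    have h1 : X ^ (0 + 1) ∣ h := by
      have hk : X ^ (k + 1) ∣ h := by
        apply ih
        refine ⟨max M 0, fun x h0 h1 => (hM x h0 h1).trans ?_⟩
        have hs : 0 ≤ √x := Real.sqrt_nonneg x
        calc M * (x ^ (k + 1) * √x) ≤ max M 0 * (x ^ (k + 1) * √x) :=
              mul_le_mul_of_nonneg_right (le_max_left _ _)
                (mul_nonneg (pow_nonneg h0.le _) hs)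
          _ ≤ max M 0 * (x ^ k * √x) := by
              apply mul_le_mul_of_nonneg_left _ (le_max_right _ _)
              exact mul_le_mul_of_nonneg_right
                (pow_le_pow_of_le_one h0.le h1.le (Nat.le_succ k)) hs
      exact (pow_dvd_pow X (by omega)).trans hk
    rw [zero_add, pow_one] at h1
    obtain ⟨g, rfl⟩ := h1
    have hg : X ^ (k + 1) ∣ g := by
      apply ih
      refine ⟨M, fun x h0 h1 => ?_⟩
      have := hM x h0 h1
      rw [eval_mul, eval_X, abs_mul, abs_of_pos h0, pow_succ] at this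
      have h2 : x * |g.eval x| ≤ x * (M * (x ^ k * √x)) := by
        calc x * |g.eval x| ≤ M * (x ^ k * x * √x) := this
          _ = x * (M * (x ^ k * √x)) := by ring
      exact le_of_mul_le_mul_left h2 h0
    rw [pow_succ' X (k + 1)]
    exact mul_dvd_mul_left X hg

/-- improvement of a bound -/
theorem improve {f : ℝ → ℝ} (hf : EE f) (k : ℕ)
    (h : ∃ M : ℝ, ∀ x : ℝ, 0 < x → x < 1 → |f x| ≤ M * (x ^ k * √x)) :
    ∃ M : ℝ, 0 ≤ M ∧ ∀ x : ℝ, 0 < x → x < 1 → |f x| ≤ M * x ^ (k + 1) := by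
  obtain ⟨M, hM⟩ := h
  obtain ⟨p, C, hC, hp⟩ := EE_nonneg hf (k + 1)
  have hd : X ^ (k + 1) ∣ p := by
    apply poly_dvd
    refine ⟨M + C, fun x h0 h1 => ?_⟩
    have h2 : |p.eval x| ≤ |f x| + |f x - p.eval x| := by
      have := abs_sub (f x) (f x - p.eval x)
      simpa using this
    have h3 : x ^ (k + 1) ≤ x ^ k * √x := by
      rw [pow_succ]
      apply mul_le_mul_of_nonneg_left _ (pow_nonneg h0.le _)
      exact Real.le_sqrt_of_sq_le (by nlinarith)
    have h4 := hM x h0 h1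
    have h5 := hp x h0 h1
    have h6 : C * x ^ (k + 1) ≤ C * (x ^ k * √x) := mul_le_mul_of_nonneg_left h3 hC
    rw [add_mul]
    linarith
  obtain ⟨q, rfl⟩ := hd
  obtain ⟨N, hN, hq⟩ := poly_bdd q
  refine ⟨N + C, by positivity, fun x h0 h1 => ?_⟩
  have hx : 0 ≤ x ^ (k + 1) := pow_nonneg h0.le _
  have h2 : |f x| ≤ |f x - (X ^ (k + 1) * q).eval x| + |(X ^ (k + 1) * q).eval x| := by
    have := abs_add_le (f x - (X ^ (k + 1) * q).eval x) ((X ^ (k + 1) * q).eval x)
    simpa using this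
  have h3 : |(X ^ (k + 1) * q).eval x| ≤ N * x ^ (k + 1) := by
    rw [eval_mul, eval_pow, eval_X, abs_mul, abs_of_nonneg hx, mul_comm]
    exact mul_le_mul_of_nonneg_right (hq x h0 h1) hx
  have h4 := hp x h0 h1
  rw [add_mul]
  linarith

theorem EE_flat {V W g : ℝ → ℝ} (hV : EE V) (hW : EE W) (hg : EE g)
    (hc : ∃ c : ℝ, 0 < c ∧ ∀ x : ℝ, 0 < x → x < 1 → c ≤ V x)
    (h : ∀ x : ℝ, 0 < x → x < 1 → V x * W x / √x = g x / x) (n : ℕ) :
    ∃ C : ℝ, 0 ≤ C ∧ ∀ x : ℝ, 0 < x → x < 1 → |W x| ≤ C * x ^ n := by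
  obtain ⟨c, hc, hVc⟩ := hc
  obtain ⟨N, hN, hVN⟩ := EE_bdd hV
  have hgx : ∀ x : ℝ, 0 < x → x < 1 → g x = V x * W x * √x := by
    intro x h0 h1
    have hs : 0 < √x := Real.sqrt_pos.mpr h0
    have h2 := h x h0 h1
    have h3 : √x * √x = x := Real.mul_self_sqrt h0.le
    rw [div_eq_div_iff hs.ne' h0.ne'] at h2
    have h4 : √x * (V x * W x * √x) = √x * g x := by
      calc √x * (V x * W x * √x) = V x * W x * (√x * √x) := by ring
        _ = V x * W x * x := by rw [h3]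
        _ = √x * g x := by rw [h2]; ring
    exact (mul_left_cancel₀ hs.ne' h4).symm
  induction n with
  | zero =>
    obtain ⟨M, hM, hb⟩ := EE_bdd hW
    exact ⟨M, hM, fun x h0 h1 => by simpa using hb x h0 h1⟩
  | succ k ih =>
    obtain ⟨M, hM, hb⟩ := ih
    obtain ⟨G, hG, hgb⟩ := improve hg k ⟨N * M, fun x h0 h1 => by
      rw [hgx x h0 h1, abs_mul, abs_mul, abs_of_nonneg (Real.sqrt_nonneg x)]
      calc |V x| * |W x| * √x ≤ N * (M * x ^ k) * √x := by
            apply mul_le_mul_of_nonneg_right _ (Real.sqrt_nonneg x)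
            exact mul_le_mul (hVN x h0 h1) (hb x h0 h1) (abs_nonneg _) hN
        _ = N * M * (x ^ k * √x) := by ring⟩
    obtain ⟨D, hD, hWb⟩ := improve hW k ⟨G / c, fun x h0 h1 => by
      have hs : 0 < √x := Real.sqrt_pos.mpr h0
      have h3 : √x * √x = x := Real.mul_self_sqrt h0.le
      have h2 := hgb x h0 h1
      rw [hgx x h0 h1, abs_mul, abs_mul, abs_of_pos hs] at h2
      have h4 : c ≤ |V x| := (hVc x h0 h1).trans (le_abs_self _)
      have h5 : c * |W x| * √x ≤ G * x ^ (k + 1) := by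
        refine le_trans ?_ h2
        apply mul_le_mul_of_nonneg_right _ hs.le
        exact mul_le_mul_of_nonneg_right h4 (abs_nonneg _)
      have h6 : G * x ^ (k + 1) = G * (x ^ k * √x) * √x := by
        rw [pow_succ]
        calc G * (x ^ k * x) = G * x ^ k * (√x * √x) := by rw [h3]; ring
          _ = G * (x ^ k * √x) * √x := by ring
      rw [h6] at h5
      have h7 : c * |W x| ≤ G * (x ^ k * √x) := le_of_mul_le_mul_right h5 hs
      rw [div_mul_eq_mul_div, le_div_iff₀ hc]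
      linarith⟩
    exact ⟨D, hD, hWb⟩

/-- EEA: rules for expansions. -/
theorem t_EEA : EEA where
  const := EE_const
  id := EE_id
  add := fun _ _ hf hg => EE_add hf hg
  mul := fun _ _ hf hg => EE_mul hf hg
  div := fun _ _ hf hg hc => EE_div hf hg hc
  exp := EE_exp
  congr := fun _ _ hf h => EE_congr hf h
  ana := fun _ hf => EE_ana hf
  flat := fun _ _ _ hV hW hg hc h n => by
    obtain ⟨C, _, hC⟩ := EE_flat hV hW hg hc h n
    exact ⟨C, hC⟩

end Pool.Agent.Y385.FK
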